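import Mathlib
import Pool.Agent.R930.MTProd

/-!
# Tensors of motives over finite extensions: full groups and identity components
-/

set_option autoImplicit false

namespace Pool.Agent.R696.MS

open Pool.Agent.R930

variable {k V Γ H : Type} [Field k] [AddCommGroup V] [Module k V] [Group Γ] [Group H]

/-- `Γ` maps to `H` by `i`, `H₀` is a subgroup of `H` (the identity component). The part of `H`
belonging to a subgroup `Δ` of `Γ`. -/
def Belongs (i : Γ →* H) (H₀ : Subgroup H) (Δ : Subgroup Γ) (h : H) : Prop :=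
  ∃ g ∈ Δ, (i g)⁻¹ * h ∈ H₀

/-- All tensors which are multiplied by the `j`-th power of the character under `Δ` are multiplied by the
`j`-th power of the character under the part of `H` belonging to `Δ`. -/
def TateOver (i : Γ →* H) (H₀ : Subgroup H) (R : Representation k H V) (ν : H →* k)
    (Δ : Subgroup Γ) : Prop :=
  ∀ (s : ℕ) (j : ℤ) (φ : MultilinearMap k (fun _ : Fin s => V) k),
    (∀ g ∈ Δ, ∀ v : Fin s → V, φ (fun l => R (i g) (v l)) = ν (i g) ^ j * φ v) →
    ∀ h : H, Belongs i H₀ Δ h → ∀ v : Fin s → V, φ (fun l => R h (v l)) = ν h ^ j * φ v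

theorem tateOver_iff (i : Γ →* H) (H₀ : Subgroup H) (R : Representation k H V) (ν : H →* k) :
    (∀ Δ : Subgroup Γ, Δ.FiniteIndex → TateOver i H₀ R ν Δ) ↔
      FixesTateTensors (R.comp i) (ν.comp i) (R.comp H₀.subtype) (ν.comp H₀.subtype) := by
  constructor
  · rintro h s j φ ⟨Δ, hΔ, hφ⟩ x v
    exact h Δ hΔ s j φ hφ x.1 ⟨1, Δ.one_mem, by rw [map_one, inv_one, one_mul]; exact x.2⟩ v
  · intro h Δ hΔ s j φ hφ x hx v
    obtain ⟨g, hg, hx⟩ := hx
    have h1 := h s j φ ⟨Δ, hΔ, hφ⟩ ⟨(i g)⁻¹ * x, hx⟩ v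
    have h2 : φ (fun l => R ((i g)⁻¹ * x) (v l)) = ν ((i g)⁻¹ * x) ^ j * φ v := h1
    have h3 := hφ g hg (fun l => R ((i g)⁻¹ * x) (v l))
    have e1 : ∀ l, R (i g) (R ((i g)⁻¹ * x) (v l)) = R x (v l) := by
      intro l
      have : R (i g) * R ((i g)⁻¹ * x) = R x := by
        rw [← map_mul, mul_inv_cancel_left]
      exact congrArg (fun F : Module.End k V => F (v l)) this
    simp only [e1] at h3
    rw [h3, h2, ← mul_assoc, ← mul_zpow, ← map_mul, mul_inv_cancel_left]

end Pool.Agent.R696.MS
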